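import Mathlib
import Pool.Agent.W2helper30.PN.Inst

set_option autoImplicit false

/-!
# Joint normality of the values of analytic functions near a point

Let `f 1, …, f R` be real functions which are analytic at `x₀` and tame: every nontrivial integral linear
combination with coefficients at most `H` has a derivative of bounded order at `x₀` which is at least `c H ^ (-E)`. For
nearly all `m ∈ (M, 2 M]` the numbers `f i (x₀ + 1 / m)` are jointly normal in all bases up to `(log M) ^ (3 / 2 - ε)`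
digits, with all their small rational linear combinations. Examples: `e ^ x`, `4 arctan x`, `√(1 + x)` at the rational
points `q > -1` (for `q = 0` and `m = 1` these numbers are `e`, `π` and `√2`; for `q = 1` they tend to `e`, `π` and `√2`).

Proof. The Fourier coefficients of the distribution of the digits are exponential sums over the
values `θ G(1 / m)`, where `G` is an integral combination of the functions and
`θ ≤ exp ((log M) ^ (1 + δ))`. The first nonzero Taylor coefficient of `G` dominates; the local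
Taylor coefficients at `m` have the right size in the window which is needed in Vinogradov's method
(small `θ` are treated with van der Corput's method).
-/

namespace Pool.Agent.Results.MP_7e9a3a_nt.AnalyticFamilies

open Filter Topology

/-- the word of the `k` digits in base `b` of `y` which follow the first `n` digits after the point,
read as an integer between `0` and `b ^ k - 1` -/
noncomputable def word (b k n : ℕ) (y : ℝ) : ℕ :=
  ⌊(b : ℝ) ^ k * Int.fract ((b : ℝ) ^ n * y)⌋₊

/-- in every base `2 ≤ b ≤ B` the number of occurrences of every `r × k` digit matrix, `1 ≤ k ≤ w`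
(row `j` is the word `D j` of `y j`), at the `N` places `s, …, s + N - 1`, for every window with
`s + N ≤ L`, differs from `N / b ^ (k r)` by at most `ε N + E` -/
def NormalIn {r : ℕ} (B w : ℕ) (L ε E : ℝ) (y : Fin r → ℝ) : Prop :=
  ∀ (b k s N : ℕ) (D : Fin r → ℕ), 2 ≤ b → b ≤ B → 1 ≤ k → k ≤ w → (∀ j, D j < b ^ k) →
    (s : ℝ) + N ≤ L →
    |(({i : ℕ | i < N ∧ ∀ j, word b k (s + i) (y j) = D j}.ncard : ℕ) : ℝ) -
      N / ((b : ℝ) ^ k) ^ r| ≤ ε * N + E

/-- the integers `a₀ j`, `a j i` and `v j ≥ 1` are at most `V` in absolute value, and the rows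
`a j` are linearly independent -/
structure Small {R r : ℕ} (V : ℝ) (a₀ : Fin r → ℤ) (a : Fin r → Fin R → ℤ) (v : Fin r → ℕ) :
    Prop where
  const : ∀ j, |(a₀ j : ℝ)| ≤ V
  coeff : ∀ j i, |(a j i : ℝ)| ≤ V
  den_pos : ∀ j, 1 ≤ v j
  den : ∀ j, (v j : ℝ) ≤ V
  indep : LinearIndependent ℚ (fun (j : Fin r) (i : Fin R) => (a j i : ℚ))

/-- the numbers `y j = (a₀ j + ∑ i, a j i * f i (x₀ + 1 / m)) / v j` -/
noncomputable def form {R r : ℕ} (f : Fin R → ℝ → ℝ) (x₀ : ℝ) (a₀ : Fin r → ℤ)
    (a : Fin r → Fin R → ℤ) (v : Fin r → ℕ) (m : ℕ) (j : Fin r) : ℝ :=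
  ((a₀ j : ℝ) + ∑ i, (a j i : ℝ) * f i (x₀ + 1 / m)) / v j

/-- There is a `C` such that for all `δ, β > 0` with `2 δ + β < 1`, all `B`, `w`, `r ≥ 1`, `ε > 0`
and all large `M`: for all `m ∈ (M, 2 M]`, except for at most `M exp (-(log M) ^ β)` of them, ALL
tuples `y₁, …, y_r` of rational linear combinations of `1` and the numbers `f i (x₀ + 1 / m)` with
independent rows and with numerators and denominators at most `exp ((log M) ^ β)` satisfy
`NormalIn B w ((log M) ^ (1 + δ)) ε (C log M) y`. -/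
def NormalNear {R : ℕ} (f : Fin R → ℝ → ℝ) (x₀ : ℝ) : Prop :=
  ∃ C : ℝ, ∀ δ β : ℝ, 0 < δ → 0 < β → 2 * δ + β < 1 → ∀ (B w r : ℕ) (ε : ℝ), 1 ≤ r → 0 < ε →
    ∃ M₀ : ℕ, ∀ M : ℕ, M₀ ≤ M →
      (({m : ℕ | M < m ∧ m ≤ 2 * M ∧ ¬ ∀ (a₀ : Fin r → ℤ) (a : Fin r → Fin R → ℤ)
        (v : Fin r → ℕ), Small (Real.exp ((Real.log M) ^ β)) a₀ a v →
        NormalIn B w ((Real.log M) ^ (1 + δ)) ε (C * Real.log M)
          (form f x₀ a₀ a v m)}.ncard : ℕ) : ℝ) ≤ M * Real.exp (-(Real.log M) ^ β)

/-- `t` has transcendence measures of polynomial type: for every degree `D` there are `κ` and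
`c > 0` such that `|P(t)| ≥ c / H ^ κ` for all integral polynomials `P ≠ 0` of degree at most `D` with
coefficients at most `H` -/
def HasMeasure (t : ℝ) : Prop :=
  ∀ D : ℕ, ∃ κ c : ℝ, 0 ≤ κ ∧ 0 < c ∧ ∀ P : Polynomial ℤ, P ≠ 0 → P.natDegree ≤ D →
    ∀ H : ℝ, 1 ≤ H → (∀ j, |(P.coeff j : ℝ)| ≤ H) → c ≤ H ^ κ * |Polynomial.aeval t P|

/-- The tuple `f` is tame at `x₀`: there are `K`, `E` and `c > 0` such that for every nonzero integral vector `h` with entries
at most `H`, the first nonzero derivative (of order `≥ 1`) of the combination `∑ i, h i * f i` at `x₀` is of order at most `K`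
and at least `c / H ^ E` in absolute value. -/
def Tame {R : ℕ} (f : Fin R → ℝ → ℝ) (x₀ : ℝ) : Prop :=
  ∃ (K E : ℕ) (c : ℝ), 0 < c ∧ ∀ (h : Fin R → ℤ) (H : ℝ), h ≠ 0 → 1 ≤ H → (∀ i, |(h i : ℝ)| ≤ H) →
    ∃ k, 1 ≤ k ∧ k ≤ K ∧ (∀ l, 1 ≤ l → l < k → ∑ i, (h i : ℝ) * iteratedDeriv l (f i) x₀ = 0) ∧
      c ≤ H ^ E * |∑ i, (h i : ℝ) * iteratedDeriv k (f i) x₀|

theorem normal_of {R : ℕ} {f : Fin R → ℝ → ℝ} {x₀ : ℝ} (h : Pool.Agent.W2helper30.PN.Conc f x₀) :
    NormalNear f x₀ := by
  classical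
  obtain ⟨C, hC⟩ := h
  refine ⟨C, fun δ β hδ hβ hδβ B w r ε hr hε => ?_⟩
  obtain ⟨M₀, hM₀⟩ := hC δ β hδ hβ hδβ B w r ε hr hε
  refine ⟨M₀, fun M hM => le_trans (Nat.cast_le.2 ?_) (hM₀ M hM)⟩
  rw [← Set.ncard_coe_finset]
  refine Set.ncard_le_ncard ?_ (Finset.finite_toSet _)
  rintro m ⟨hm1, hm2, hbad⟩
  rw [Finset.mem_coe, Finset.mem_filter, Finset.mem_Ioc]
  refine ⟨⟨hm1, hm2⟩, fun hcon => hbad fun a₀ a v hs => ?_⟩
  intro b k s N D hb hbB hk hkw hD hsN
  have hsml : Pool.Agent.W2helper30.PN.Sml (Real.exp ((Real.log M) ^ β)) a₀ a v := by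
    refine ⟨hs.const, hs.coeff, hs.den_pos, hs.den, fun c hc => ?_⟩
    by_contra hno
    push Not at hno
    have h1 := (Fintype.linearIndependent_iff.1 hs.indep) (fun j => (c j : ℚ)) (by
      funext i
      have h2 := hno i
      have h3 : ((∑ j, c j * a j i : ℤ) : ℚ) = 0 := by rw [h2]; simp
      push_cast at h3
      simpa [Finset.sum_apply] using h3)
    apply hc
    funext j
    exact_mod_cast h1 j
  have h1 := hcon b a₀ a v hb hbB hsml k s N D hk hkw hD hsN
  have h2 : {i : ℕ | i < N ∧ ∀ j, word b k (s + i) (form f x₀ a₀ a v m j) = D j} =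
      (((Finset.range N).filter (fun i => ∀ j, Pool.Agent.Y933.KD.wd b k (s + i)
        (Pool.Agent.W2helper30.PN.lf f x₀ a₀ a v m j) = D j) : Finset ℕ) : Set ℕ) := by
    ext i
    simp only [Set.mem_ofPred_eq, Finset.coe_filter, Finset.mem_range]
    rfl
  rw [h2, Set.ncard_coe_finset]
  exact h1

/-- **Normality near a point.**

(1) `NormalNear f x₀` holds for every tuple of real functions `f i` which are analytic at `x₀` and tame at `x₀`.

(2) The tuple is tame if no nontrivial integral linear combination of the `f i` is constant near `x₀` and either there is only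
one function, or all derivatives `f i ^ (k) (x₀)`, `k ≥ 1`, are algebraic over `ℚ(t)`, where `t` is a number with transcendence
measures of polynomial type; `e`, `π` and the logarithms of the positive rational numbers `≠ 1` are such numbers `t`.

(3) Examples of (1): the triple `e ^ x`, `4 arctan x`, `√(1 + x)` at every rational point `q > -1`, and the pairs
`(e x, √2 x)` and `(π x, √2 x)` at the point `0`, that is the numbers `(e / m, √2 / m)` and `(π / m, √2 / m)`. -/
theorem result :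
    (∀ (R : ℕ) (f : Fin R → ℝ → ℝ) (x₀ : ℝ), (∀ i, AnalyticAt ℝ (f i) x₀) → Tame f x₀ →
      NormalNear f x₀) ∧
    ((∀ (R : ℕ) (f : Fin R → ℝ → ℝ) (x₀ : ℝ), (∀ i, AnalyticAt ℝ (f i) x₀) →
      (∀ h : Fin R → ℤ, h ≠ 0 → ∀ C : ℝ, ¬ ∀ᶠ x in 𝓝 x₀, ∑ i, (h i : ℝ) * f i x = C) →
      (R = 1 ∨ ∃ t : ℝ, HasMeasure t ∧ ∀ i k, 1 ≤ k →
        IsAlgebraic (IntermediateField.adjoin ℚ ({t} : Set ℝ)) (iteratedDeriv k (f i) x₀)) →
      Tame f x₀) ∧
      HasMeasure (Real.exp 1) ∧ HasMeasure Real.pi ∧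
      ∀ q : ℚ, 0 < q → q ≠ 1 → HasMeasure (Real.log q)) ∧
    ((∀ q : ℚ, -1 < q →
      NormalNear ![Real.exp, fun x => 4 * Real.arctan x, fun x => √(1 + x)] (q : ℝ)) ∧
      NormalNear ![fun x => Real.exp 1 * x, fun x => √2 * x] 0 ∧
      NormalNear ![fun x => Real.pi * x, fun x => √2 * x] 0) := by
  have hpair : ∀ t : ℝ, Pool.Agent.R473.EC.MeasR t → Transcendental ℚ t →
      NormalNear ![fun x => t * x, fun x => √2 * x] 0 := by
    intro t ht htr
    have h1 := Pool.Agent.W2helper30.PN.conc_lin ht (![t, √2] : Fin 2 → ℝ) (fun i => by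
      fin_cases i
      · exact Pool.Agent.W2helper30.PN.alg_self t
      · have h2 := Pool.Agent.W2helper30.PN.alg_sqrt 2 (by norm_num)
        exact Pool.Agent.W2helper30.PN.alg_of t (by exact_mod_cast h2))
      (Pool.Agent.W2helper30.PN.ind_sqrt htr)
    have h2 : (fun (i : Fin 2) (x : ℝ) => (![t, √2] : Fin 2 → ℝ) i * x) =
        ![fun x => t * x, fun x => √2 * x] := by
      funext i
      fin_cases i <;> rfl
    rw [h2] at h1
    exact normal_of h1
  refine ⟨fun R f x₀ hf ht => normal_of (Pool.Agent.W2helper30.PN.conc_of hf ht),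
    ⟨fun R f x₀ hf hne ht => ?_, ?_, ?_, ?_⟩, fun q hq => ?_, ?_, ?_⟩
  · rcases ht with hR | ⟨t, ht, ha⟩
    · subst hR
      have h1 : f = fun _ => f 0 := by
        funext i
        rw [Fin.eq_zero i]
      rw [h1]
      refine Pool.Agent.W2helper30.PN.tame_single (f 0) x₀ (hf 0) fun C hC => ?_
      refine hne (fun _ => 1) (fun h0 => ?_) C ?_
      · have := congrFun h0 0
        simp at this
      · filter_upwards [hC] with x hx
        rw [Fin.sum_univ_one, Int.cast_one, one_mul, hx]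
    · exact Pool.Agent.W2helper30.PN.tame_alg ht f x₀
        (fun h hh => Pool.Agent.W2helper30.PN.deriv_ne f x₀ hf h (hne h hh)) ha
  · exact Pool.Agent.W2helper30.PN.measR_e
  · exact Pool.Agent.R473.EC.measR_pi
  · intro q hq hq1
    exact Pool.Agent.R473.EC.measR_of _ (Pool.Agent.TH456.TM.measT_real_log q hq hq1)
  · exact normal_of (Pool.Agent.W2helper30.PN.conc_F3 q hq)
  · exact hpair _ Pool.Agent.W2helper30.PN.measR_e Pool.Agent.W2helper30.PN.transcendental_e
  · exact hpair _ Pool.Agent.R473.EC.measR_pi Pool.Agent.W2helper30.PN.transcendental_pi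

end Pool.Agent.Results.MP_7e9a3a_nt.AnalyticFamilies
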