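import Pool.Agent.W2helper74.LC.Inst

/-!
# Blocks of digits of several numbers in `ℚ + ℚ e`, `ℚ + ℚ √2`, `ℚ + ℚ π`

Definitions (module `Pool.Agent.W2helper74.LC`): `digit b x i` is the `i`-th digit of `x` behind the
point in base `b`; `block b x t n` is the word of the digits at the places `t + 1, …, t + n`;
`words b y N n` is the set of words of length `n` which occur behind the place `N` in at least one of
the numbers `y i`; `Inequivalent b x y` means that the `y i` are irrational, of the form
`q + ∑ v_s x_s` with rational `q`, `v_s`, and that no `y i` differs from some `b^t y j`, `j ≠ i`,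
`t ≥ 0`, by a rational number; `comb x u v` is the family `u i + ∑ v i s x_s` and `PowFree b v` means
that the integer vectors `v i` are nonzero and none is a power of `b` times another one.
-/

set_option autoImplicit false

open Finset Filter Pool.Agent.W2helper74.LC

namespace Pool.Agent.Results.MP_7e9a3a_nt.JointBlocks

/-- Let `b ≥ 2`, and let `(x, ω)` be one of `((e^{κ_1}, …, e^{κ_d}), d)` with distinct nonzero
integers `κ_j` and `d ≥ 1`, `(√2, 1)`, `(π, 5.05)`. Let `y_1, …, y_r` be inequivalent numbers in the
rational span of `1` and the `x_s`.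

(i) For every `N` and `ε > 0` and all large `n` at least `(r / ω - ε) n` different words of length
`n` occur behind the place `N` in the expansions of `y_1, …, y_r` in base `b` (together).

(ii) If a set of words has at most `C n` elements of length `n` for infinitely many `n`, and contains
all words which occur behind some place in each of `y_1, …, y_r`, then `r ≤ C ω`.

(iii) For `η > 0` there is a constant `C` such that for all integer vectors `v_1, …, v_r` of height at
most `H`, none of which is a power of `b` times another one, all integers `u_i`, and all `n`, at least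
`r (n / (ω + η) - log_b H - C)` words of length `n` occur in the numbers `u_i + ∑ v_{is} x_s`.

(iv) For `z = e` and `z = √2` at least `(M - ⌊M / b⌋ - ε) n` words of length `n` occur behind the
place `N` in one of `z, 2 z, …, M z`, and at least `((M - ⌊M / b⌋) / 5.05 - ε) n` for `z = π`, for all
large `n`. -/
theorem result (b : ℕ) (hb : 2 ≤ b) :
    (∀ (d : ℕ) (κ : Fin d → ℤ), 1 ≤ d → Function.Injective κ → (∀ j, κ j ≠ 0) →
      Conclusion b (fun j => Real.exp (κ j)) d) ∧
    Conclusion b (fun _ : Fin 1 => √2) 1 ∧
    Conclusion b (fun _ : Fin 1 => Real.pi) 5.05 ∧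
    ∀ (M N : ℕ) (ε : ℝ), 0 < ε → ∀ᶠ n : ℕ in atTop,
      ((M - M / b : ℕ) - ε) * n ≤
        ((words b (fun a : Fin M => ((a : ℕ) + 1 : ℝ) * Real.exp 1) N n).ncard : ℝ) ∧
      ((M - M / b : ℕ) - ε) * n ≤
        ((words b (fun a : Fin M => ((a : ℕ) + 1 : ℝ) * √2) N n).ncard : ℝ) ∧
      ((M - M / b : ℕ) / 5.05 - ε) * n ≤
        ((words b (fun a : Fin M => ((a : ℕ) + 1 : ℝ) * Real.pi) N n).ncard : ℝ) := by
  have he : Expo (fun _ : Fin 1 => Real.exp 1) 1 := by
    have h := expo_exp (fun _ : Fin 1 => (1 : ℤ)) (fun i j _ => Subsingleton.elim i j)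
      (fun _ => one_ne_zero)
    simpa using h
  have hirr : Irrational (Real.exp 1) := by
    obtain ⟨c, hc, h⟩ := he 1 one_pos
    obtain ⟨c', hc', h'⟩ := sep _ _ c (by norm_num) hc h
    rintro ⟨q, hq⟩
    have h1 := h' (-q.num) (fun _ => q.den) (by
      intro h0
      have := congrFun h0 0
      simp at this) (max 1 q.den) (le_max_left _ _) (fun _ => by
        rw [Int.cast_natCast, abs_of_nonneg (Nat.cast_nonneg _)]
        exact le_max_right _ _)
    rw [Fin.sum_univ_one, ← hq] at h1
    have h2 := Rat.mul_den_eq_num q
    have h3 : ((q : ℚ) : ℝ) * q.den = q.num := by exact_mod_cast h2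
    have h4 : ((-q.num : ℤ) : ℝ) + ((q.den : ℤ) : ℝ) * (q : ℝ) = 0 := by
      push_cast
      linear_combination h3
    rw [h4, abs_zero, mul_zero] at h1
    linarith
  refine ⟨fun d κ hd hκ h0 => conclusion b hb _ _ (by exact_mod_cast hd) (expo_exp κ hκ h0),
    conclusion b hb _ _ one_pos expo_sqrt2, conclusion b hb _ _ (by norm_num) expo_pi,
    fun M N ε hε => ?_⟩
  filter_upwards [multiples b hb _ hirr 1 one_pos he M N ε hε,
    multiples b hb _ irrational_sqrt_two 1 one_pos expo_sqrt2 M N ε hε,
    multiples b hb _ irrational_pi 5.05 (by norm_num) expo_pi M N ε hε] with n h1 h2 h3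
  refine ⟨?_, ?_, h3⟩
  · rwa [div_one] at h1
  · rwa [div_one] at h2

end Pool.Agent.Results.MP_7e9a3a_nt.JointBlocks
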