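import Mathlib
import Pool.Agent.W2helper84.RB.Inst

set_option autoImplicit false

/-!
# The digits of `e`, `π` and `√2` in a random base

Let `x` be a tuple of real numbers which has a measure of linear independence modulo one (for
instance numbers algebraic over `ℚ(e)` or over `ℚ(π)` which are, together with `1`, linearly
independent over `ℚ`; for instance one irrational number which is not a Liouville number). If the
base `b` is chosen at random among `H` consecutive integers, then the classes modulo `q` equal parts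
of the digits number `2, ..., k + 1` of the numbers of the tuple are, in total variation,
`exp (-(log H) ^ β)`-close to independent uniformly distributed variables, for all
`k ≤ (log H) ^ κ` and all `q ≤ exp ((log H) ^ β)`, as soon as `3 κ + β < 1`.
-/

namespace Pool.Agent.Results.MP_7e9a3a_nt.RandomBases

/-- the digit number `n ≥ 1` after the point in the base `b` expansion of `x` -/
noncomputable def digit (b : ℕ) (x : ℝ) (n : ℕ) : ℤ := ⌊x * (b : ℝ) ^ n⌋ % (b : ℤ)

/-- the class `c ∈ {0, ..., q - 1}` of this digit `d ∈ {0, ..., b - 1}`: the integral part of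
`q d / b`, so that `c b ≤ q d < (c + 1) b` -/
noncomputable def digitClass (q b : ℕ) (x : ℝ) (n : ℕ) : ℤ := ((q : ℤ) * digit b x n) / (b : ℤ)

/-- The classes of the digits number `2, ..., k + 1` of the numbers `x i` in a random base are nearly
independent and uniformly distributed: for all `κ, β > 0` with `3 κ + β < 1` and all large `H`, for
every interval `(a, a + H]` of bases, every `k ≤ (log H) ^ κ`, every `q ≤ exp ((log H) ^ β)` and every
set `E` of `R × k` matrices with entries in `{0, ..., q - 1}`, the number of the bases for which the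
matrix of the classes is in `E` differs from `H |E| / q ^ (R k)` by at most
`H exp (-(log H) ^ β)`. -/
def RandomDigits {R : ℕ} (x : Fin R → ℝ) : Prop :=
  ∀ κ β : ℝ, 0 < κ → 0 < β → 3 * κ + β < 1 →
    ∃ H₀ : ℕ, ∀ H : ℕ, H₀ ≤ H → ∀ a k q : ℕ, 1 ≤ q →
      (k : ℝ) ≤ (Real.log H) ^ κ → (q : ℝ) ≤ Real.exp ((Real.log H) ^ β) →
      ∀ E : Set (Fin R → Fin k → ℤ), (∀ w ∈ E, ∀ i j, 0 ≤ w i j ∧ w i j < q) →
        |(({b : ℕ | a < b ∧ b ≤ a + H ∧
            (fun (i : Fin R) (j : Fin k) => digitClass q b (x i) ((j : ℕ) + 2)) ∈ E}.ncard : ℕ) : ℝ) -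
          H * ((E.ncard : ℝ) / (q : ℝ) ^ (R * k))| ≤ H * Real.exp (-(Real.log H) ^ β)

/-- the numbers `x i` have a measure of linear independence modulo one: the distance of
`∑ i, h i * x i` to every integer is at least `c / N ^ w` for all integral vectors `h ≠ 0` with
entries at most `N` in absolute value -/
def IndependentModOne {R : ℕ} (x : Fin R → ℝ) : Prop :=
  ∃ w c : ℝ, 0 ≤ w ∧ 0 < c ∧ ∀ h : Fin R → ℤ, h ≠ 0 → ∀ N : ℝ, (∀ i, |(h i : ℝ)| ≤ N) →
    ∀ p : ℤ, c ≤ N ^ w * |∑ i, (h i : ℝ) * x i - p|

/-- the height of an integer polynomial: the largest absolute value of a coefficient -/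
def height (P : Polynomial ℤ) : ℕ := P.support.sup fun i => (P.coeff i).natAbs

/-- Mahler's U-numbers: for some degree `d` and every exponent `w` there are infinitely many
`P ∈ ℤ[X]` of degree at most `d` with `0 < |P(x)| ≤ (height P) ^ (-w)` -/
def UNumber (x : ℝ) : Prop :=
  ∃ d : ℕ, ∀ w : ℕ, {P : Polynomial ℤ | P.natDegree ≤ d ∧ 0 < |Polynomial.aeval x P| ∧
    |Polynomial.aeval x P| * (height P : ℝ) ^ w ≤ 1}.Infinite

/-- `e`, `π`, the logarithm of a positive rational number `≠ 1`, or any transcendental number which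
is not a U-number -/
def Special (z : ℝ) : Prop :=
  z = Real.exp 1 ∨ z = Real.pi ∨ (∃ q : ℚ, 0 < q ∧ q ≠ 1 ∧ z = Real.log q) ∨
    (Transcendental ℚ z ∧ ¬ UNumber z)

theorem meas_of {R : ℕ} {x : Fin R → ℝ} (hx : IndependentModOne x) :
    Pool.Agent.W2helper84.RB.Meas x := by
  obtain ⟨w, c, hw, hc, h⟩ := hx
  exact ⟨w, c, hw, hc, fun g hg N hN => h g hg N hN _⟩

theorem random_of {R : ℕ} {x : Fin R → ℝ} (hx : Pool.Agent.W2helper84.RB.Meas x) :
    RandomDigits x := by
  classical
  intro κ β hκ hβ hκβ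
  obtain ⟨H₀, h⟩ := Pool.Agent.W2helper84.RB.main x hx κ β hκ hβ (by linarith)
  refine ⟨H₀, fun H hH a k q hq hk hqβ E hE => ?_⟩
  have hfin : ∀ S : Set (Fin R → Fin k → ℤ), (∀ w ∈ S, ∀ i j, 0 ≤ w i j ∧ w i j < q) → S.Finite := by
    intro S hS
    refine Set.Finite.subset (Set.Finite.pi' fun _ : Fin R => Set.Finite.pi' fun _ : Fin k =>
      Set.finite_Ico (0 : ℤ) q) fun w hw => ?_
    intro i j
    exact hS w hw i j
  obtain ⟨F, hF⟩ : ∃ F : Finset (Fin R × Fin k → ℤ), F = (hfin E hE).toFinset.image
      (fun w => fun p : Fin R × Fin k => w p.1 p.2) := ⟨_, rfl⟩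
  have hinj : Function.Injective
      (fun (w : Fin R → Fin k → ℤ) => fun p : Fin R × Fin k => w p.1 p.2) := by
    intro w w' hww
    funext i j
    exact congrFun hww (i, j)
  have hFc : F.card = E.ncard := by
    rw [hF, Finset.card_image_of_injective _ hinj, Set.ncard_eq_toFinset_card E (hfin E hE)]
  have h1 := h H hH a k q hq hk hqβ F (by
    intro w hw p
    rw [hF, Finset.mem_image] at hw
    obtain ⟨v, hv, rfl⟩ := hw
    exact hE v ((hfin E hE).mem_toFinset.1 hv) p.1 p.2)
  have h2 : {b : ℕ | a < b ∧ b ≤ a + H ∧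
      (fun (i : Fin R) (j : Fin k) => digitClass q b (x i) ((j : ℕ) + 2)) ∈ E}.ncard =
      ((Finset.Ioc a (a + H)).filter fun b => (fun p : Fin R × Fin k =>
        Pool.Agent.W2helper84.RB.cls q b (x p.1) ((p.2 : ℕ) + 2)) ∈ F).card := by
    rw [← Set.ncard_coe_finset]
    congr 1
    ext b
    rw [Finset.coe_filter, Set.mem_ofPred_eq, Set.mem_ofPred_eq, Finset.mem_Ioc, and_assoc]
    refine and_congr_right fun _ => and_congr_right fun _ => ?_
    rw [hF, Finset.mem_image]
    constructor
    · intro hb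
      exact ⟨_, (hfin E hE).mem_toFinset.2 hb, rfl⟩
    · rintro ⟨v, hv, hvb⟩
      have h3 : v = fun (i : Fin R) (j : Fin k) => digitClass q b (x i) ((j : ℕ) + 2) := by
        apply hinj
        exact hvb
      rw [← h3]
      exact (hfin E hE).mem_toFinset.1 hv
  rw [h2, ← hFc]
  exact h1

theorem random_special {z : ℝ} (hz : Special z) {R : ℕ} (x : Fin R → ℝ)
    (hx : ∀ i, IsAlgebraic (IntermediateField.adjoin ℚ ({z} : Set ℝ)) (x i))
    (hli : LinearIndependent ℚ (Fin.cons 1 x : Fin (R + 1) → ℝ)) : RandomDigits x :=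
  random_of (Pool.Agent.W2helper84.RB.meas_of_li (Pool.Agent.W2helper84.RB.measR_special hz) x hx hli)

theorem transcendental_exp : Transcendental ℤ (Real.exp 1) := by
  have h := Pool.Agent.TH456.TM.transcendental_of_measT Pool.Agent.TH456.TM.measT_e
  intro ha
  exact h (ha.algebraMap (A := ℂ))

theorem transcendental_pi : Transcendental ℤ Real.pi := by
  have h := Pool.Agent.TH456.TM.transcendental_of_measT Pool.Agent.TH456.TM.measT_pi
  intro ha
  exact h (ha.algebraMap (A := ℂ))

theorem transcendental_rat {z : ℝ} (hz : Transcendental ℤ z) : Transcendental ℚ z :=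
  fun h => hz ((IsFractionRing.isAlgebraic_iff ℤ ℚ ℝ).2 h)

theorem sqrt_two_algebraic : IsAlgebraic ℚ (√2 : ℝ) := by
  refine IsAlgebraic.of_pow (n := 2) two_pos ?_
  rw [Real.sq_sqrt (by norm_num)]
  exact_mod_cast isAlgebraic_algebraMap (2 : ℚ)

/-- a transcendental and a quadratic number -/
theorem li_pair {z y : ℝ} (hz : Transcendental ℤ z) (hy : IsAlgebraic ℚ y) (hyi : Irrational y) :
    LinearIndependent ℚ (Fin.cons 1 ![z, y] : Fin (2 + 1) → ℝ) := by
  rw [Fintype.linearIndependent_iff]
  intro g hg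
  rw [Fin.sum_univ_three] at hg
  have e0 : (Fin.cons 1 ![z, y] : Fin (2 + 1) → ℝ) 0 = 1 := rfl
  have e1 : (Fin.cons 1 ![z, y] : Fin (2 + 1) → ℝ) 1 = z := rfl
  have e2 : (Fin.cons 1 ![z, y] : Fin (2 + 1) → ℝ) 2 = y := rfl
  rw [e0, e1, e2, Rat.smul_def, Rat.smul_def, Rat.smul_def] at hg
  have hz' : Transcendental ℚ z := transcendental_rat hz
  have h1 : g 1 = 0 := by
    by_contra h1
    apply hz'
    have h2 : z = ((-(g 0) / g 1 : ℚ) : ℝ) + ((-(g 2) / g 1 : ℚ) : ℝ) * y := by
      have h3 : (g 1 : ℝ) ≠ 0 := by exact_mod_cast h1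
      push_cast
      field_simp
      linarith
    rw [h2]
    exact (isAlgebraic_algebraMap _).add ((isAlgebraic_algebraMap _).mul hy)
  have h2 : g 2 = 0 := by
    by_contra h2
    apply hyi
    refine ⟨-(g 0) / g 2, ?_⟩
    have h3 : (g 2 : ℝ) ≠ 0 := by exact_mod_cast h2
    rw [h1] at hg
    push_cast at hg ⊢
    field_simp
    linarith
  have h0 : g 0 = 0 := by
    rw [h1, h2] at hg
    push_cast at hg
    have : (g 0 : ℝ) = 0 := by linarith
    exact_mod_cast this
  intro i
  fin_cases i
  · exact h0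
  · exact h1
  · exact h2

theorem li_single {y : ℝ} (hyi : Irrational y) :
    LinearIndependent ℚ (Fin.cons 1 ![y] : Fin (1 + 1) → ℝ) := by
  rw [Fintype.linearIndependent_iff]
  intro g hg
  rw [Fin.sum_univ_two] at hg
  have e0 : (Fin.cons 1 ![y] : Fin (1 + 1) → ℝ) 0 = 1 := rfl
  have e1 : (Fin.cons 1 ![y] : Fin (1 + 1) → ℝ) 1 = y := rfl
  rw [e0, e1, Rat.smul_def, Rat.smul_def] at hg
  have h2 : g 1 = 0 := by
    by_contra h2
    apply hyi
    refine ⟨-(g 0) / g 1, ?_⟩
    have h3 : (g 1 : ℝ) ≠ 0 := by exact_mod_cast h2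
    push_cast at hg ⊢
    field_simp
    linarith
  have h0 : g 0 = 0 := by
    rw [h2] at hg
    push_cast at hg
    have : (g 0 : ℝ) = 0 := by linarith
    exact_mod_cast this
  intro i
  fin_cases i
  · exact h0
  · exact h2

theorem alg_self (z : ℝ) : IsAlgebraic (IntermediateField.adjoin ℚ ({z} : Set ℝ)) z := by
  have h : z ∈ IntermediateField.adjoin ℚ ({z} : Set ℝ) :=
    IntermediateField.subset_adjoin ℚ _ (Set.mem_singleton z)
  exact isAlgebraic_algebraMap (⟨z, h⟩ : IntermediateField.adjoin ℚ ({z} : Set ℝ))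

theorem alg_of (z : ℝ) {y : ℝ} (hy : IsAlgebraic ℚ y) :
    IsAlgebraic (IntermediateField.adjoin ℚ ({z} : Set ℝ)) y := hy.tower_top _

/-- **The digits in a random base.**

(1) `RandomDigits x` holds for every tuple `x` with a measure of linear independence modulo one.

(2) It holds for every tuple `x` of real numbers algebraic over `ℚ(z)` such that `1` and the `x i`
are linearly independent over `ℚ`, if `z` is `e`, `π`, the logarithm of a positive rational number
`≠ 1` or a transcendental number which is not a U-number. (Tuples of algebraic numbers are included.)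

(3) It holds for every single irrational number which is not a Liouville number.

(4) It holds for each of the numbers `e`, `π` and `√2`, and for the pairs `(e, √2)` and
`(π, √2)`. -/
theorem result :
    (∀ (R : ℕ) (x : Fin R → ℝ), IndependentModOne x → RandomDigits x) ∧
    (∀ z : ℝ, Special z → ∀ (R : ℕ) (x : Fin R → ℝ),
      (∀ i, IsAlgebraic (IntermediateField.adjoin ℚ ({z} : Set ℝ)) (x i)) →
      LinearIndependent ℚ (Fin.cons 1 x : Fin (R + 1) → ℝ) → RandomDigits x) ∧
    (∀ x : ℝ, Irrational x → ¬ Liouville x → RandomDigits ![x]) ∧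
    RandomDigits ![Real.exp 1] ∧ RandomDigits ![Real.pi] ∧ RandomDigits ![√2] ∧
    RandomDigits ![Real.exp 1, √2] ∧ RandomDigits ![Real.pi, √2] := by
  have h1 : ∀ z : ℝ, Special z → Irrational z → RandomDigits ![z] := by
    intro z hz hzi
    refine random_special hz _ (fun i => ?_) (li_single hzi)
    rw [Fin.eq_zero i]
    exact alg_self z
  have h2 : ∀ z : ℝ, Special z → Transcendental ℤ z → RandomDigits ![z, √2] := by
    intro z hz hzi
    refine random_special hz _ (fun i => ?_) (li_pair hzi sqrt_two_algebraic irrational_sqrt_two)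
    fin_cases i
    · exact alg_self z
    · exact alg_of z sqrt_two_algebraic
  refine ⟨fun R x hx => random_of (meas_of hx), fun z hz R x hx hli => random_special hz x hx hli,
    fun x hx hL => ?_, h1 _ (Or.inl rfl) (transcendental_rat transcendental_exp).irrational,
    h1 _ (Or.inr (Or.inl rfl)) irrational_pi, ?_, h2 _ (Or.inl rfl) transcendental_exp,
    h2 _ (Or.inr (Or.inl rfl)) transcendental_pi⟩
  · have h3 := random_of (Pool.Agent.W2helper84.RB.meas_of_not_liouville hx hL)
    have h4 : (![x] : Fin 1 → ℝ) = fun _ => x := by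
      funext i
      rw [Fin.eq_zero i]
      rfl
    rw [h4]
    exact h3
  · refine random_special (z := Real.exp 1) (Or.inl rfl) _ (fun i => ?_) (li_single irrational_sqrt_two)
    rw [Fin.eq_zero i]
    exact alg_of _ sqrt_two_algebraic

end Pool.Agent.Results.MP_7e9a3a_nt.RandomBases
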