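import Mathlib
import Pool.Agent.W2helper84.PB.Fin
import Pool.Agent.Results.MP_7e9a3a_nt.RandomBases

set_option autoImplicit false

/-!
# The digits of `e`, `π` and `√2` in a random prime base

Let `x` be a tuple of real numbers which has a measure of linear independence modulo one (for
instance numbers algebraic over `ℚ(e)` or over `ℚ(π)` which are, together with `1`, linearly
independent over `ℚ`; for instance one irrational number which is not a Liouville number). If the
base `p` is chosen at random among the primes up to `H`, then the classes modulo `q` equal parts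
of the digits number `2, ..., k + 1` of the numbers of the tuple are, in total variation,
`exp (-(log H) ^ β)`-close to independent uniformly distributed variables, for all
`k ≤ (log H) ^ κ` and all `q ≤ exp ((log H) ^ β)`, as soon as `5 κ + β < 1`. The proof rests on a
bound for exponential sums over primes with a polynomial of growing degree, of which only the
leading coefficient is known.
-/

namespace Pool.Agent.Results.MP_7e9a3a_nt.RandomPrimeBases

open Pool.Agent.H425R3.JL (PR PR_card)

/-- the digit number `n ≥ 1` after the point in the base `b` expansion of `x` -/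
noncomputable def digit (b : ℕ) (x : ℝ) (n : ℕ) : ℤ := ⌊x * (b : ℝ) ^ n⌋ % (b : ℤ)

/-- the class `c ∈ {0, ..., q - 1}` of this digit `d ∈ {0, ..., b - 1}`: the integral part of
`q d / b`, so that `c b ≤ q d < (c + 1) b` -/
noncomputable def digitClass (q b : ℕ) (x : ℝ) (n : ℕ) : ℤ := ((q : ℤ) * digit b x n) / (b : ℤ)

/-- The classes of the digits number `2, ..., k + 1` of the numbers `x i` in a random prime base are
nearly independent and uniformly distributed: for all `κ, β > 0` with `5 κ + β < 1` and all large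
`H`, for every `k ≤ (log H) ^ κ`, every `q ≤ exp ((log H) ^ β)` and every set `E` of `R × k` matrices
with entries in `{0, ..., q - 1}`, the number of the primes `p ≤ H` for which the matrix of the
classes in base `p` is in `E` differs from `π(H) |E| / q ^ (R k)` by at most
`π(H) exp (-(log H) ^ β)`. -/
def RandomPrimeDigits {R : ℕ} (x : Fin R → ℝ) : Prop :=
  ∀ κ β : ℝ, 0 < κ → 0 < β → 5 * κ + β < 1 →
    ∃ H₀ : ℕ, ∀ H : ℕ, H₀ ≤ H → ∀ k q : ℕ, 1 ≤ q →
      (k : ℝ) ≤ (Real.log H) ^ κ → (q : ℝ) ≤ Real.exp ((Real.log H) ^ β) →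
      ∀ E : Set (Fin R → Fin k → ℤ), (∀ w ∈ E, ∀ i j, 0 ≤ w i j ∧ w i j < q) →
        |(({p : ℕ | p.Prime ∧ p ≤ H ∧
            (fun (i : Fin R) (j : Fin k) => digitClass q p (x i) ((j : ℕ) + 2)) ∈ E}.ncard : ℕ) : ℝ) -
          (Nat.primeCounting H : ℝ) * ((E.ncard : ℝ) / (q : ℝ) ^ (R * k))| ≤
        (Nat.primeCounting H : ℝ) * Real.exp (-(Real.log H) ^ β)

/-- the numbers `x i` have a measure of linear independence modulo one: the distance of
`∑ i, h i * x i` to every integer is at least `c / N ^ w` for all integral vectors `h ≠ 0` with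
entries at most `N` in absolute value -/
def IndependentModOne {R : ℕ} (x : Fin R → ℝ) : Prop :=
  ∃ w c : ℝ, 0 ≤ w ∧ 0 < c ∧ ∀ h : Fin R → ℤ, h ≠ 0 → ∀ N : ℝ, (∀ i, |(h i : ℝ)| ≤ N) →
    ∀ p : ℤ, c ≤ N ^ w * |∑ i, (h i : ℝ) * x i - p|

/-- the height of an integer polynomial: the largest absolute value of a coefficient -/
def height (P : Polynomial ℤ) : ℕ := P.support.sup fun i => (P.coeff i).natAbs

/-- Mahler's U-numbers: for some degree `d` and every exponent `w` there are infinitely many
`P ∈ ℤ[X]` of degree at most `d` with `0 < |P(x)| ≤ (height P) ^ (-w)` -/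
def UNumber (x : ℝ) : Prop :=
  ∃ d : ℕ, ∀ w : ℕ, {P : Polynomial ℤ | P.natDegree ≤ d ∧ 0 < |Polynomial.aeval x P| ∧
    |Polynomial.aeval x P| * (height P : ℝ) ^ w ≤ 1}.Infinite

/-- `e`, `π`, the logarithm of a positive rational number `≠ 1`, or any transcendental number which
is not a U-number -/
def Special (z : ℝ) : Prop :=
  z = Real.exp 1 ∨ z = Real.pi ∨ (∃ q : ℚ, 0 < q ∧ q ≠ 1 ∧ z = Real.log q) ∨
    (Transcendental ℚ z ∧ ¬ UNumber z)

theorem meas_of {R : ℕ} {x : Fin R → ℝ} (hx : IndependentModOne x) :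
    Pool.Agent.W2helper84.RB.Meas x := by
  obtain ⟨w, c, hw, hc, h⟩ := hx
  exact ⟨w, c, hw, hc, fun g hg N hN => h g hg N hN _⟩

theorem random_of {R : ℕ} {x : Fin R → ℝ} (hx : Pool.Agent.W2helper84.RB.Meas x) :
    RandomPrimeDigits x := by
  classical
  intro κ β hκ hβ hκβ
  obtain ⟨H₀, h⟩ := Pool.Agent.W2helper84.PB.prime_main x hx κ β hκ hβ hκβ
  refine ⟨H₀, fun H hH k q hq hk hqβ E hE => ?_⟩
  have hfin : E.Finite := by
    refine Set.Finite.subset (Set.Finite.pi' fun _ : Fin R => Set.Finite.pi' fun _ : Fin k =>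
      Set.finite_Ico (0 : ℤ) q) fun w hw => ?_
    intro i j
    exact hE w hw i j
  obtain ⟨F, hF⟩ : ∃ F : Finset (Fin R × Fin k → ℤ), F = hfin.toFinset.image
      (fun w => fun p : Fin R × Fin k => w p.1 p.2) := ⟨_, rfl⟩
  have hinj : Function.Injective
      (fun (w : Fin R → Fin k → ℤ) => fun p : Fin R × Fin k => w p.1 p.2) := by
    intro w w' hww
    funext i j
    exact congrFun hww (i, j)
  have hFc : F.card = E.ncard := by
    rw [hF, Finset.card_image_of_injective _ hinj, Set.ncard_eq_toFinset_card E hfin]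
  have h1 := h H hH k q hq hk hqβ F (by
    intro w hw p
    rw [hF, Finset.mem_image] at hw
    obtain ⟨v, hv, rfl⟩ := hw
    exact hE v (hfin.mem_toFinset.1 hv) p.1 p.2)
  have h2 : {p : ℕ | p.Prime ∧ p ≤ H ∧
      (fun (i : Fin R) (j : Fin k) => digitClass q p (x i) ((j : ℕ) + 2)) ∈ E}.ncard =
      ((PR H).filter fun b => (fun p : Fin R × Fin k =>
        Pool.Agent.W2helper84.RB.cls q b (x p.1) ((p.2 : ℕ) + 2)) ∈ F).card := by
    rw [← Set.ncard_coe_finset]
    congr 1
    ext b
    rw [Finset.coe_filter, Set.mem_ofPred_eq, Set.mem_ofPred_eq, ← and_assoc]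
    have h3 : (b.Prime ∧ b ≤ H) ↔ b ∈ PR H := by
      unfold Pool.Agent.H425R3.JL.PR
      rw [Finset.mem_filter, Finset.mem_Icc]
      constructor
      · rintro ⟨hp, hb⟩
        exact ⟨⟨hp.one_lt.le, hb⟩, hp⟩
      · rintro ⟨⟨_, hb⟩, hp⟩
        exact ⟨hp, hb⟩
    rw [h3]
    refine and_congr_right fun _ => ?_
    rw [hF, Finset.mem_image]
    constructor
    · intro hb
      exact ⟨_, hfin.mem_toFinset.2 hb, rfl⟩
    · rintro ⟨v, hv, hvb⟩
      have h3 : v = fun (i : Fin R) (j : Fin k) => digitClass q b (x i) ((j : ℕ) + 2) := by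
        apply hinj
        exact hvb
      rw [← h3]
      exact hfin.mem_toFinset.1 hv
  rw [h2, ← hFc, ← PR_card]
  exact h1

theorem random_special {z : ℝ} (hz : Special z) {R : ℕ} (x : Fin R → ℝ)
    (hx : ∀ i, IsAlgebraic (IntermediateField.adjoin ℚ ({z} : Set ℝ)) (x i))
    (hli : LinearIndependent ℚ (Fin.cons 1 x : Fin (R + 1) → ℝ)) : RandomPrimeDigits x :=
  random_of (Pool.Agent.W2helper84.RB.meas_of_li (Pool.Agent.W2helper84.RB.measR_special hz) x hx hli)

/-- exponential sums over primes with polynomials of growing degree -/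
theorem prime_sums (κ β δ : ℝ) (w : ℕ) (hκ : 0 < κ) (hβ : 0 < β) (hκβ : 4 * κ + β < 1)
    (hδ : δ < 1) (hw : 1 ≤ w) : ∃ H₀ : ℕ, ∀ H : ℕ, H₀ ≤ H → ∀ f : Polynomial ℝ,
      1 ≤ f.natDegree → (f.natDegree : ℝ) ≤ (Real.log H) ^ κ →
      (∀ n : ℕ, 1 ≤ n → ∀ m : ℤ,
        1 ≤ Real.exp ((Real.log H) ^ δ) * (n : ℝ) ^ w * |f.leadingCoeff * n - m|) →
      ‖∑ p ∈ (Finset.Icc 1 H).filter Nat.Prime,
        Complex.exp (2 * Real.pi * (f.eval (p : ℝ) : ℝ) * Complex.I)‖ ≤
        (Nat.primeCounting H : ℝ) * Real.exp (-(Real.log H) ^ β) := by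
  obtain ⟨H₀, h⟩ := Pool.Agent.W2helper84.PB.primes_asym κ β δ w hκ hβ hκβ hδ hw
  refine ⟨H₀, fun H hH f hf1 hfκ hdio => ?_⟩
  have h1 := (h H hH).2 f hf1 hfκ _ (Real.exp_nonneg _) le_rfl fun n hn => hdio n hn _
  rw [mul_comm (Nat.primeCounting H : ℝ), ← PR_card]
  exact h1

/-- **The digits in a random prime base.**

(1) `RandomPrimeDigits x` holds for every tuple `x` with a measure of linear independence modulo
one.

(2) It holds for every tuple `x` of real numbers algebraic over `ℚ(z)` such that `1` and the `x i`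
are linearly independent over `ℚ`, if `z` is `e`, `π`, the logarithm of a positive rational number
`≠ 1` or a transcendental number which is not a U-number. (Tuples of algebraic numbers are included.)

(3) It holds for every single irrational number which is not a Liouville number.

(4) It holds for each of the numbers `e`, `π` and `√2`, and for the pairs `(e, √2)` and
`(π, √2)`. -/
theorem result :
    (∀ (R : ℕ) (x : Fin R → ℝ), IndependentModOne x → RandomPrimeDigits x) ∧
    (∀ z : ℝ, Special z → ∀ (R : ℕ) (x : Fin R → ℝ),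
      (∀ i, IsAlgebraic (IntermediateField.adjoin ℚ ({z} : Set ℝ)) (x i)) →
      LinearIndependent ℚ (Fin.cons 1 x : Fin (R + 1) → ℝ) → RandomPrimeDigits x) ∧
    (∀ x : ℝ, Irrational x → ¬ Liouville x → RandomPrimeDigits ![x]) ∧
    (RandomPrimeDigits ![Real.exp 1] ∧ RandomPrimeDigits ![Real.pi] ∧ RandomPrimeDigits ![√2] ∧
      RandomPrimeDigits ![Real.exp 1, √2] ∧ RandomPrimeDigits ![Real.pi, √2]) := by
  have h1 : ∀ z : ℝ, Special z → Irrational z → RandomPrimeDigits ![z] := by
    intro z hz hzi
    refine random_special hz _ (fun i => ?_) (RandomBases.li_single hzi)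
    rw [Fin.eq_zero i]
    exact RandomBases.alg_self z
  have h2 : ∀ z : ℝ, Special z → Transcendental ℤ z → RandomPrimeDigits ![z, √2] := by
    intro z hz hzi
    refine random_special hz _ (fun i => ?_)
      (RandomBases.li_pair hzi RandomBases.sqrt_two_algebraic irrational_sqrt_two)
    fin_cases i
    · exact RandomBases.alg_self z
    · exact RandomBases.alg_of z RandomBases.sqrt_two_algebraic
  refine ⟨fun R x hx => random_of (meas_of hx), fun z hz R x hx hli => random_special hz x hx hli,
    fun x hx hL => ?_, ⟨h1 _ (Or.inl rfl)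
      (RandomBases.transcendental_rat RandomBases.transcendental_exp).irrational,
    h1 _ (Or.inr (Or.inl rfl)) irrational_pi, ?_, h2 _ (Or.inl rfl) RandomBases.transcendental_exp,
    h2 _ (Or.inr (Or.inl rfl)) RandomBases.transcendental_pi⟩⟩
  · have h3 := random_of (Pool.Agent.W2helper84.RB.meas_of_not_liouville hx hL)
    have h4 : (![x] : Fin 1 → ℝ) = fun _ => x := by
      funext i
      rw [Fin.eq_zero i]
      rfl
    rw [h4]
    exact h3
  · refine random_special (z := Real.exp 1) (Or.inl rfl) _ (fun i => ?_)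
      (RandomBases.li_single irrational_sqrt_two)
    rw [Fin.eq_zero i]
    exact RandomBases.alg_of _ RandomBases.sqrt_two_algebraic

end Pool.Agent.Results.MP_7e9a3a_nt.RandomPrimeBases
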